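import Pool.Agent.V1142.EQ.Emb

/-!
# Equidistribution of the coefficients over `ℚ` is equidistribution on average over number fields

`x_v` is a bounded sequence of real numbers, indexed by the places `v` of `ℚ`, that is by the primes
`p = N(v)` (for the problem: `x_v = a_i(A)(p)`, the coefficients of the normalised Euler factors of an
abelian variety `A` over `ℚ`, which lie in `I_i`; any number in `I_i` at the bad primes), and `ν` a measure
on the real numbers (for the problem: the measure `Φ_i* μ`).  `K_0, K_1, ...` are number fields different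
from `ℚ`, inside the algebraic closure of `ℚ`, with `[K_i K_j : ℚ] = [K_i : ℚ] [K_j : ℚ]` for `i ≠ j`.  They
need not be Galois, and their degrees need not be bounded.

The prime `p` has as many prime ideals of degree one in `K` as there are embeddings of `K` which are fixed
by a Frobenius element `φ_p`, if `p` is unramified in `K`, and the prime ideals of `K` of higher degree have
density zero.  So `avgOver φ K a N` is, up to `o(1)`, the average of the bounded function `a` over the prime
ideals of `K` of norm at most `N`, and `EquidistributedOver` is the statement for the base change of `A` to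
`K` (with the Sato-Tate group of `A`, which is the Sato-Tate group of the base change if `K` is linearly
disjoint from the field over which the Sato-Tate group becomes connected; this holds for all but finitely
many of the `K_i`).

`rankOf K` is the number of orbits of the absolute Galois group on the pairs of embeddings of `K`, at least
`2` for `K ≠ ℚ` and at most `[K : ℚ]`; it is `2` for quadratic fields and for all fields of degree `n` whose
Galois group is the symmetric group on `n` letters.
-/

set_option autoImplicit false

namespace Pool.Agent.Results.MP_753a9c_nt.AverageOverFields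

open NumberField IsDedekindDomain Filter Topology MeasureTheory
open Pool.Agent.V1142.EQ (fixedEmbeddings rankOf avg avgOver)

/-- The places of `ℚ`. -/
abbrev Place : Type := HeightOneSpectrum (𝓞 ℚ)

/-- `σ` is a Frobenius element at `v`: for some maximal ideal `Q` above `v` of the ring of all algebraic
integers, `σ x ≡ x ^ N(v)` modulo `Q` for all `x`. -/
def IsFrobenius (v : Place) (σ : Gal(AlgebraicClosure ℚ/ℚ)) : Prop :=
  ∃ Q : Ideal (𝓞 (AlgebraicClosure ℚ)), Q.IsMaximal ∧
    Q.comap (algebraMap (𝓞 ℚ) (𝓞 (AlgebraicClosure ℚ))) = v.asIdeal ∧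
    ∀ x : 𝓞 (AlgebraicClosure ℚ), σ • x - x ^ Ideal.absNorm v.asIdeal ∈ Q

/-- The `x v` are equidistributed with respect to `ν`: for each continuous `f : ℝ → ℝ` the average of
`f (x v)` over the primes `p ≤ N` tends to the integral of `f`. -/
def Equidistributed (x : Place → ℝ) (ν : Measure ℝ) : Prop :=
  ∀ f : ℝ → ℝ, Continuous f → Tendsto (avg fun v => f (x v)) atTop (𝓝 (∫ t, f t ∂ν))

/-- Equidistribution over `K`: the same with each prime counted with the number of the embeddings of `K`
fixed by its Frobenius element (the number of its prime ideals of degree one in `K`). -/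
def EquidistributedOver (φ : Place → Gal(AlgebraicClosure ℚ/ℚ))
    (K : IntermediateField ℚ (AlgebraicClosure ℚ)) (x : Place → ℝ) (ν : Measure ℝ) : Prop :=
  ∀ f : ℝ → ℝ, Continuous f → Tendsto (avgOver φ K fun v => f (x v)) atTop (𝓝 (∫ t, f t ∂ν))

/-- Equidistribution on average over the `K i`: for each continuous `f` and `δ > 0`, for all large `m`, for
all large `N` (depending on `m`), the mean over `i < m`, with the weights `1 / (rankOf (K i) - 1)`, of the
distance of the average of `f` over `K i` at the scale `N` from the integral of `f` is at most `δ`. -/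
def EquidistributedOnAverage (φ : Place → Gal(AlgebraicClosure ℚ/ℚ))
    (K : ℕ → IntermediateField ℚ (AlgebraicClosure ℚ)) (x : Place → ℝ) (ν : Measure ℝ) : Prop :=
  ∀ f : ℝ → ℝ, Continuous f → ∀ δ : ℝ, 0 < δ → ∀ᶠ m in atTop, ∀ᶠ N in atTop,
    (∑ i ∈ Finset.range m, 1 / ((rankOf (K i) : ℝ) - 1) *
      |avgOver φ (K i) (fun v => f (x v)) N - ∫ t, f t ∂ν|) /
      (∑ i ∈ Finset.range m, 1 / ((rankOf (K i) : ℝ) - 1)) ≤ δ

/-- Let `K_0, K_1, ...` be number fields, all different from `ℚ`, with
`[K_i K_j : ℚ] = [K_i : ℚ] [K_j : ℚ]` for `i ≠ j`.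

1. (Unconditional.)  For each finite set `J` of indices and `ε > 0`, for all large `N`, for all real sequences
`x` and all functions `f : ℝ → [-1, 1]`: the sum over `i ∈ J` of the squares of the differences between the
averages of `f (x)` over `K_i` and over `ℚ` at the scale `N`, divided by `rankOf (K_i) - 1`, is at most
`1 + ε`.  (`N` does not depend on the sequence, that is on the abelian variety, and on `f`.)

2. If infinitely many of the `rankOf (K_i)` are bounded by one number `D`, or more generally if
`∑ 1 / (rankOf (K_i) - 1)` diverges, then for each bounded real sequence `x` and measure `ν` equidistribution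
over `ℚ` is equivalent to equidistribution on average over the `K_i`; in particular it holds if
equidistribution holds over all but finitely many of the `K_i`. -/
theorem result (φ : Place → Gal(AlgebraicClosure ℚ/ℚ)) (hφ : ∀ v, IsFrobenius v (φ v))
    (K : ℕ → IntermediateField ℚ (AlgebraicClosure ℚ)) (hfin : ∀ i, FiniteDimensional ℚ (K i))
    (hne : ∀ i, K i ≠ ⊥)
    (hdisj : ∀ i j, i ≠ j →
      Module.finrank ℚ (K i ⊔ K j : IntermediateField ℚ (AlgebraicClosure ℚ)) =
        Module.finrank ℚ (K i) * Module.finrank ℚ (K j)) :
    (∀ (J : Finset ℕ) (ε : ℝ), 0 < ε → ∀ᶠ N in atTop, ∀ (x : Place → ℝ) (f : ℝ → ℝ),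
      (∀ t, |f t| ≤ 1) →
      ∑ i ∈ J, (avgOver φ (K i) (fun v => f (x v)) N - avg (fun v => f (x v)) N) ^ 2 /
        ((rankOf (K i) : ℝ) - 1) ≤ 1 + ε) ∧
    (((∃ D : ℕ, ∃ᶠ i in atTop, rankOf (K i) ≤ D) ∨
        ¬ Summable fun i => 1 / ((rankOf (K i) : ℝ) - 1)) →
      ∀ (x : Place → ℝ) (M : ℝ), (∀ v, |x v| ≤ M) → ∀ ν : Measure ℝ,
        (Equidistributed x ν ↔ EquidistributedOnAverage φ K x ν) ∧
        ((∀ᶠ i in atTop, EquidistributedOver φ (K i) x ν) → Equidistributed x ν)) := by
  refine ⟨fun J ε hε => ?_, fun h x M hM ν => ?_⟩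
  · filter_upwards [Pool.Agent.V1142.EQ.bessel' φ hφ K hfin hne hdisj J ε hε] with N hN x f hf
    exact hN _ (fun v => hf _)
  · have hs : ¬ Summable fun i => 1 / ((rankOf (K i) : ℝ) - 1) := by
      rcases h with ⟨D, hD⟩ | h
      · exact Pool.Agent.V1142.EQ.not_summable' K hfin hne D hD
      · exact h
    have key : ∀ f : ℝ → ℝ, Continuous f → ∃ C : ℝ, ∀ v, |f (x v)| ≤ C := by
      intro f hf
      obtain ⟨C, hC⟩ := (isCompact_Icc (a := -M) (b := M)).exists_bound_of_continuousOn
        hf.continuousOn
      exact ⟨C, fun v => hC _ (abs_le.1 (hM v))⟩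
    refine ⟨⟨fun h f hf => ?_, fun h f hf => ?_⟩, fun h f hf => ?_⟩
    · obtain ⟨C, hC⟩ := key f hf
      exact (Pool.Agent.V1142.EQ.equivalence' φ hφ K hfin hne hdisj hs _ C hC _).1 (h f hf)
    · obtain ⟨C, hC⟩ := key f hf
      exact (Pool.Agent.V1142.EQ.equivalence' φ hφ K hfin hne hdisj hs _ C hC _).2 (h f hf)
    · obtain ⟨C, hC⟩ := key f hf
      refine Pool.Agent.V1142.EQ.descent' φ hφ K hfin hne hdisj hs _ C hC _ ?_
      filter_upwards [h] with i hi
      exact hi f hf

end Pool.Agent.Results.MP_753a9c_nt.AverageOverFields
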