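import Pool.Agent.Y57.FD.Tup0
import Pool.Agent.Y57.FD.HypM

/-!
# The moments up to the order `2 g + 3` of the normalized traces `a_1(p)` of the Jacobians of almost all hyperelliptic curves of
genus `g` whose coefficients arise from arbitrary integers by changing a few digits: square-root error, over arbitrary families of
weights

The local means are computed exactly: the values of a random monic polynomial of degree `2 g + 1` at `2 g + 1` points are
independent, and the next even moment leads to a Jacobi sum; the main terms are the moments of the trace on `USp(2g)`.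
-/

set_option autoImplicit false

namespace Pool.Agent.Results.MP_753a9c_nt.FewDigitJacobians

open Finset

/-- The number of the solutions of `Y ^ 2 = X ^ (2 g + 1) + m (2 g) X ^ (2 g) + ... + m 1 X + m 0` modulo `p`. -/
noncomputable def points (g p : ℕ) (m : Fin (2 * g + 1) → ℕ) : ℕ :=
  Nat.card {P : ZMod p × ZMod p // P.2 ^ 2 = P.1 ^ (2 * g + 1) + ∑ i, (m i : ZMod p) * P.1 ^ (i : ℕ)}

/-- `p` is odd and `X ^ (2 g + 1) + m (2 g) X ^ (2 g) + ... + m 0` is separable modulo `p`, so that the hyperelliptic curve of genus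
`g` with this equation is smooth modulo `p`. -/
def Smooth (g p : ℕ) (m : Fin (2 * g + 1) → ℕ) : Prop :=
  p ≠ 2 ∧ (Polynomial.X ^ (2 * g + 1) + ∑ i, Polynomial.C (m i : ZMod p) * Polynomial.X ^ (i : ℕ)).Separable

open Classical in
/-- The coefficient `a_1` of the normalized Euler factor at `p` of the Jacobian of `C : Y ^ 2 = X ^ (2 g + 1) + ... + m 0`: the
number `#C(F_p) - (p + 1)` divided by `p ^ (1 / 2)` (there is one point at infinity, so that `#C(F_p) = points g p m + 1`), and `0` if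
the curve is not smooth modulo `p`. -/
noncomputable def a₁ (g p : ℕ) (m : Fin (2 * g + 1) → ℕ) : ℝ :=
  if Smooth g p m then (((points g p m : ℝ) + 1) - ((p : ℝ) + 1)) / Real.sqrt p else 0

/-- The moment of order `j ≤ 2 g + 3` of the trace of a random matrix in `USp(2g)`: it is `0` for odd `j` and
`1 · 3 · 5 ⋯ (j - 1)` for even `j`, except that it is `1 · 3 · 5 ⋯ (2 g + 1) - 1` for `j = 2 g + 2`. -/
noncomputable def moment (g j : ℕ) : ℝ :=
  (if Even j then ((j - 1).doubleFactorial : ℝ) else 0) - if j = 2 * g + 2 then 1 else 0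

/-- For all weights in `W` and all orders `j ≤ 2 g + 3` the weighted moment of order `j` of the numbers `a_1(p)` at the first `n`
primes `p_0 = 2, p_1, ..., p_(n-1)` differs from its expected value by at most `(max 1 (∑ w k ^ 2)) ^ (1 / 2) n ^ δ`. -/
def Moments (g : ℕ) (δ : ℝ) (W : Set (ℕ → ℝ)) (n : ℕ) (m : Fin (2 * g + 1) → ℕ) : Prop :=
  ∀ w ∈ W, ∀ j : ℕ, j ≤ 2 * g + 3 →
    |∑ k ∈ range n, w k * a₁ g (Nat.nth Nat.Prime k) m ^ j - moment g j * ∑ k ∈ range n, w k| ≤
      Real.sqrt (max 1 (∑ k ∈ range n, w k ^ 2)) * (n : ℝ) ^ δ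

/-- The digit number `i` (counted from the right, beginning with `0`) of `n` in base `b`. -/
def digit (b i n : ℕ) : ℕ := n / b ^ i % b

/-- The number which arises from the number `N` with at most `K` digits in base `b`, if for every `i ∈ S`
the digit number `i` is replaced by `f i`. -/
def change (b K N : ℕ) (f : ℕ → ℕ) (S : Finset ℕ) : ℕ :=
  ∑ i ∈ range K, (if i ∈ S then f i else digit b i N) * b ^ i

open Classical in
/-- The number of the choices of `r l` of `K l` positions for all `l` for which the tuple of the numbers obtained by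
changing the digits of the `N l` at the chosen positions (according to `f l`) does not have the property `E`. -/
noncomputable def exceptions {d : ℕ} (b : ℕ) (K r N : Fin d → ℕ) (f : Fin d → ℕ → ℕ) (E : (Fin d → ℕ) → Prop) : ℕ :=
  ((Fintype.piFinset (fun l => powersetCard (r l) (range (K l)))).filter
    (fun S => ¬ E (fun l => change b (K l) (N l) (f l) (S l)))).card

lemma exc_eq {d : ℕ} (b : ℕ) (K r N : Fin d → ℕ) (f : Fin d → ℕ → ℕ) (E : (Fin d → ℕ) → Prop) :
    exceptions b K r N f E = Pool.Agent.Y57.FD.exceptions b K r N f E := rfl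

lemma moment_eq (g j : ℕ) : moment g j = Pool.Agent.Y57.FD.Mom.usp g j := rfl

lemma card_affine (p : ℕ) [Fact p.Prime] (hp : p ≠ 2) (f : ZMod p → ZMod p) :
    (Nat.card {P : ZMod p × ZMod p // P.2 ^ 2 = f P.1} : ℝ) = (p : ℝ) + ∑ x : ZMod p, (quadraticChar (ZMod p) (f x) : ℝ) := by
  classical
  have hchar : ringChar (ZMod p) ≠ 2 := by
    rw [ZMod.ringChar_zmod_n]
    exact hp
  have h1 : Nat.card {P : ZMod p × ZMod p // P.2 ^ 2 = f P.1} = ∑ x : ZMod p, Nat.card {y : ZMod p // y ^ 2 = f x} := by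
    rw [← Nat.card_sigma]
    refine Nat.card_congr ⟨fun P => ⟨P.1.1, ⟨P.1.2, P.2⟩⟩, fun P => ⟨(P.1, P.2.1), P.2.2⟩, fun _ => rfl, fun _ => rfl⟩
  have h2 : ∀ x : ZMod p, ((Nat.card {y : ZMod p // y ^ 2 = f x} : ℕ) : ℤ) = quadraticChar (ZMod p) (f x) + 1 := by
    intro x
    rw [← quadraticChar_card_sqrts hchar (f x)]
    congr 1
    rw [Nat.card_eq_fintype_card, Fintype.card_subtype]
    congr 1
    ext y
    simp
  rw [h1]
  push_cast
  have h3 : ∀ x : ZMod p, ((Nat.card {y : ZMod p // y ^ 2 = f x} : ℕ) : ℝ) = (quadraticChar (ZMod p) (f x) : ℝ) + 1 := by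
    intro x
    have := h2 x
    exact_mod_cast this
  rw [sum_congr rfl (fun x _ => h3 x), sum_add_distrib, sum_const, card_univ, ZMod.card, nsmul_eq_mul, mul_one]
  ring

lemma a₁_eq (g p : ℕ) (hp : p.Prime) (m : Fin (2 * g + 1) → ℕ) :
    a₁ g p m = Pool.Agent.Y57.FD.HM.tr g p m := by
  classical
  haveI : Fact p.Prime := ⟨hp⟩
  unfold a₁ Pool.Agent.Y57.FD.HM.tr
  by_cases h2 : p = 2
  · rw [if_neg (fun h => h.1 h2), dif_neg (fun h => h.2 h2)]
  · rw [dif_pos ⟨hp, h2⟩]
    have hpol : (Pool.Agent.Y57.FD.HM.pol p (D := 2 * g + 1) (fun i => ((m i : ℕ) : ZMod p))) =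
        Polynomial.X ^ (2 * g + 1) + ∑ i, Polynomial.C (m i : ZMod p) * Polynomial.X ^ (i : ℕ) := rfl
    by_cases h3 : (Pool.Agent.Y57.FD.HM.pol p (D := 2 * g + 1) (fun i => ((m i : ℕ) : ZMod p))).Separable
    · have h4 : Smooth g p m := ⟨h2, by rw [hpol] at h3; exact h3⟩
      rw [if_pos h4, if_pos h3]
      have h5 : (points g p m : ℝ) = (p : ℝ) + ∑ x : ZMod p, (quadraticChar (ZMod p)
          (Pool.Agent.Y57.FD.Mom.val (ZMod p) (2 * g + 1) (fun i => ((m i : ℕ) : ZMod p)) x) : ℝ) := by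
        unfold points
        rw [card_affine p h2 (fun x => x ^ (2 * g + 1) + ∑ i, (m i : ZMod p) * x ^ (i : ℕ))]
        rfl
      rw [h5, ZMod.card]
      congr 1
      ring
    · have h4 : ¬ Smooth g p m := fun h => h3 (by rw [hpol]; exact h.2)
      rw [if_neg h4, if_neg h3]

/-- Let `g ≥ 0`, a base `b ≥ 2`, `δ > 0` and integers `A, B ≥ 0` be given. There are `c > 0` and `y₀` such that for all integers
`r l`, `K l` (`l = 0, ..., 2 g`), `y` with `2 r l ≤ K l` and `y ≥ y₀` the following holds.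

Let `0 ≤ N l < b ^ K l` be arbitrary integers, prescribe for every position `j` a digit `f l j` different from the digit of
`N l` in base `b`, and let for every `n` an arbitrary set `W n` of at most `n ^ B` weights `w : ℕ → [-1, 1]` be given (for instance
the indicator functions of intervals, residue classes or other sets of primes, or the values of characters). If one chooses `r l` of
the `K l` positions and replaces the digits of `N l` at these positions, then for all but at most a proportion `1 / y ^ A` of the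
choices the Jacobian of the curve `Y ^ 2 = X ^ (2 g + 1) + m (2 g) X ^ (2 g) + ... + m 0` with the numbers `m l` obtained has the
following property: for all integers `n` with `y ≤ n ≤ exp (c r l)` for all `l`, all weights `w ∈ W n` and all orders `j ≤ 2 g + 3`
the sum `∑ w k a_1(p_k) ^ j` over the first `n` primes differs from `∑ w k` times the moment of order `j` of the trace on `USp(2g)`
by at most `(max 1 (∑ w k ^ 2)) ^ (1 / 2) n ^ δ`. -/
theorem result (g b : ℕ) (hb : 2 ≤ b) (δ : ℝ) (hδ : 0 < δ) (A B : ℕ) :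
    ∃ c : ℝ, 0 < c ∧ ∃ y₀ : ℕ, ∀ (K r : Fin (2 * g + 1) → ℕ) (y : ℕ), (∀ l, 2 * r l ≤ K l) → y₀ ≤ y →
    ∀ N : Fin (2 * g + 1) → ℕ, (∀ l, N l < b ^ K l) →
    ∀ f : Fin (2 * g + 1) → ℕ → ℕ, (∀ l j, f l j < b ∧ f l j ≠ digit b j (N l)) →
    ∀ W : ℕ → Set (ℕ → ℝ), (∀ n, (W n).Finite ∧ (W n).ncard ≤ n ^ B) → (∀ n, ∀ w ∈ W n, ∀ k, |w k| ≤ 1) →
      (exceptions b K r N f
        (fun m => ∀ n : ℕ, y ≤ n → (∀ l, (n : ℝ) ≤ Real.exp (c * r l)) → Moments g δ (W n) n m) : ℝ) ≤
        1 / (y : ℝ) ^ A * ∏ l, ((K l).choose (r l) : ℝ) := by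
  classical
  -- the constants of the local means
  have hch : ∀ j : ℕ, ∃ C : ℝ, 0 ≤ C ∧ (j ≤ 2 * g + 3 → ∀ p : ℕ, p.Prime →
      |Pool.Agent.TH894.NE.mean (2 * g + 1) p (fun m => Pool.Agent.Y57.FD.HM.tr g p m ^ j) - moment g j| ≤ C / p) := by
    intro j
    by_cases hj : j ≤ 2 * g + 3
    · obtain ⟨C, hC0, hC⟩ := Pool.Agent.Y57.FD.HM.tr_mean g j hj
      exact ⟨C, hC0, fun _ => hC⟩
    · exact ⟨0, le_rfl, fun h1 => absurd h1 hj⟩
  choose C hC0 hC using hch
  obtain ⟨C', hC'⟩ : ∃ C' : ℝ, C' = ∑ j ∈ range (2 * g + 4), C j := ⟨_, rfl⟩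
  have hC'0 : 0 ≤ C' := by
    rw [hC']
    exact sum_nonneg fun j _ => hC0 j
  obtain ⟨B', hB'⟩ : ∃ B' : ℝ, B' = 1 + ∑ j ∈ range (2 * g + 4), ((2 * (g : ℝ)) ^ j + |moment g j|) := ⟨_, rfl⟩
  have hB'1 : 1 ≤ B' := by
    rw [hB']
    have : 0 ≤ ∑ j ∈ range (2 * g + 4), ((2 * (g : ℝ)) ^ j + |moment g j|) := sum_nonneg fun j _ => by positivity
    linarith
  obtain ⟨c, hc, y₁, h⟩ := Pool.Agent.Y57.FD.tuples0 b (2 * g + 1) 1 hb (by omega) le_rfl δ hδ A (B + (2 * g + 4)) B' C' hB'1 hC'0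
  refine ⟨c, hc, y₁ + 2, fun K r y hrK hy N hN f hf W hW hW1 => ?_⟩
  rw [exc_eq]
  have hWf : ∀ n, (W n).Finite := fun n => (hW n).1
  refine h K r y hrK (by omega) N hN f hf
    ((ℕ → ℝ) × ℕ) (fun n => (hWf n).toFinset ×ˢ range (2 * g + 4)) ?_ (fun l => l.1) ?_
    (fun l i p m => if l.2 ≤ 2 * g + 3 then Pool.Agent.Y57.FD.HM.tr g p m ^ l.2 - moment g l.2 else 0)
    ?_ ?_ ?_ _ ?_
  · intro n hn
    rw [card_product, ← Set.ncard_eq_toFinset_card _ (hWf n), pow_add, card_range]
    apply Nat.mul_le_mul (hW n).2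
    calc 2 * g + 4 ≤ 2 ^ (2 * g + 4) := Nat.lt_two_pow_self.le
      _ ≤ n ^ (2 * g + 4) := Nat.pow_le_pow_left hn _
  · intro n l hl k
    rw [mem_product, Set.Finite.mem_toFinset] at hl
    exact hW1 n l.1 hl.1 k
  · intro l i p hp m
    show (if l.2 ≤ 2 * g + 3 then Pool.Agent.Y57.FD.HM.tr g p m ^ l.2 - moment g l.2 else 0) =
      (if l.2 ≤ 2 * g + 3 then Pool.Agent.Y57.FD.HM.tr g p (fun j => m j % p) ^ l.2 - moment g l.2 else 0)
    rw [← Pool.Agent.Y57.FD.HM.tr_mod g p m]
  · intro l i p hp m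
    show |(if l.2 ≤ 2 * g + 3 then Pool.Agent.Y57.FD.HM.tr g p m ^ l.2 - moment g l.2 else 0)| ≤ B'
    split_ifs with h1
    · have h2 : |Pool.Agent.Y57.FD.HM.tr g p m ^ l.2| ≤ (2 * (g : ℝ)) ^ l.2 := by
        rw [abs_pow]
        exact pow_le_pow_left₀ (abs_nonneg _) (Pool.Agent.Y57.FD.HM.tr_le g p m) _
      have h3 := abs_sub (Pool.Agent.Y57.FD.HM.tr g p m ^ l.2) (moment g l.2)
      have h4 : (2 * (g : ℝ)) ^ l.2 + |moment g l.2| ≤ ∑ j ∈ range (2 * g + 4), ((2 * (g : ℝ)) ^ j + |moment g j|) :=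
        single_le_sum (f := fun j => (2 * (g : ℝ)) ^ j + |moment g j|) (fun j _ => by positivity)
          (mem_range.2 (by omega))
      rw [hB']
      linarith
    · rw [abs_zero]
      linarith
  · intro n l hl
    rw [mem_product, mem_range] at hl
    refine ⟨0, fun p hp => ?_⟩
    have hj : l.2 ≤ 2 * g + 3 := by omega
    have hp0 : (0 : ℝ) < p := by exact_mod_cast hp.pos
    have hp1 : (1 : ℝ) ≤ p := by exact_mod_cast hp.one_lt.le
    have h2 : (fun m : Fin (2 * g + 1) → ℕ => if l.2 ≤ 2 * g + 3 then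
        Pool.Agent.Y57.FD.HM.tr g p m ^ l.2 - moment g l.2 else 0) =
        fun m : Fin (2 * g + 1) → ℕ => Pool.Agent.Y57.FD.HM.tr g p m ^ l.2 + (fun _ => - moment g l.2) m := by
      funext m
      rw [if_pos hj]
      ring
    show |Pool.Agent.TH894.NE.mean (2 * g + 1) p (fun m : Fin (2 * g + 1) → ℕ => if l.2 ≤ 2 * g + 3 then
        Pool.Agent.Y57.FD.HM.tr g p m ^ l.2 - moment g l.2 else 0)| ≤ _
    rw [h2, Pool.Agent.TH894.NE.mean_add, Pool.Agent.TH894.NE.mean_const (2 * g + 1) p hp.pos, ← sub_eq_add_neg]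
    refine (hC l.2 hj p hp).trans ?_
    have h3 : C l.2 ≤ C' := by
      rw [hC']
      exact single_le_sum (f := C) (fun j _ => hC0 j) (mem_range.2 (by omega))
    have h4 : Real.sqrt p ≤ p := by
      rw [Real.sqrt_le_left hp0.le]
      nlinarith
    calc C l.2 / (p : ℝ) ≤ C' / p := div_le_div_of_nonneg_right h3 hp0.le
      _ ≤ C' / Real.sqrt p := div_le_div_of_nonneg_left hC'0 (Real.sqrt_pos.2 hp0) h4
  · intro m hm n hyn hnr w hw j hj
    have h1 := hm n (by omega) (by omega) hnr (w, j) (by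
      rw [mem_product, Set.Finite.mem_toFinset, mem_range]
      exact ⟨hw, by show j < 2 * g + 4; omega⟩)
    have h2 : ∑ k ∈ range n, w k * a₁ g (Nat.nth Nat.Prime k) m ^ j - moment g j * ∑ k ∈ range n, w k =
        ∑ k ∈ range n, w k * ∏ i : Fin 1,
          (if j ≤ 2 * g + 3 then Pool.Agent.Y57.FD.HM.tr g (Pool.Agent.TH894.NF.pr (k + i)) m ^ j - moment g j else 0) := by
      rw [mul_sum, ← sum_sub_distrib]
      refine sum_congr rfl fun k _ => ?_
      rw [Fin.prod_univ_one, if_pos hj]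
      have h3 : a₁ g (Nat.nth Nat.Prime k) m = Pool.Agent.Y57.FD.HM.tr g (Pool.Agent.TH894.NF.pr (k + (0 : Fin 1))) m := by
        rw [a₁_eq g _ (Nat.prime_nth_prime k)]
        rfl
      rw [h3]
      ring
    rw [h2]
    exact h1

end Pool.Agent.Results.MP_753a9c_nt.FewDigitJacobians
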