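import Pool.Agent.H2N.SP.Level

/-!
# Products of elliptic curves: finitely many `L`-functions at one point

`K` is a number field, in the problem `K = ℚ`, and `A = E_1 × ... × E_g` a product of elliptic curves over `K`,
given by their normalised traces `t_i(v)` in `[-2, 2]`.  If the `E_i` have no complex multiplication and are
pairwise not isogenous over an algebraic closure, the Sato-Tate group of `A` is `SU(2)^g`; its irreducible
representations are the `⊗ Sym^{k_i}`, with the traces `∏ U_{k_i}(x_i / 2)`.  By Serre the Sato-Tate law for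
`A` follows, if all `L(⊗ Sym^{k_i} E_i, s)`, `k ≠ 0`, have no zeros and no poles on the edge line
`Re s = (∑ k_i) / 2 + 1`.  Nothing is assumed here about automorphy.  The theorem uses only finitely many
`k`, only one or two points of the line, and only that there are no poles there.

The definitions are in `Pool.Agent.H2N.SP`, `Pool.Agent.H2N.ST.Defs` and `Pool.Agent.W353.EH.Defs`:
`ptr k x = ∏ U_{k_i}(x_i / 2)`; `IsProduct t k τ B`: the `B v` are the Euler factors of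
`L(⊗ Sym^{k_i} E_i, s)` (arbitrary ones, regular at the point of the edge line at the height `τ`, at finitely
many primes); `lev j`: equal to `0` for `j = 0`, to `3` for `j = 1` and to `2 j` for `j ≥ 2`; `HasOrder W τ B m`:
the Euler product has a meromorphic continuation to a neighbourhood of `W / 2 + 1 + i τ`, of order `m` at this
point; `size W τ B ε`: `log |L(W / 2 + 1 + i τ + ε)| / log (1 / ε)`; `DirichletMean φ A`: the average
`∑ φ(v) q_v^{-1-ε} / ∑ q_v^{-1-ε}` tends to `A`.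
-/

set_option autoImplicit false

namespace Pool.Agent.Results.MP_753a9c_nt.ProductsFiniteLevel

open NumberField IsDedekindDomain Filter Topology Polynomial
open Pool.Agent.W353.EH (size HasOrder)
open Pool.Agent.H2N.SP (IsProduct ptr lev box mem_box)
open Pool.Agent.H2N.ST (DirichletMean)

/-- Let `E_1, ..., E_g` be elliptic curves over `K` with the normalised traces `t_1, ..., t_g`.
* (1) Let `c₀ + ∑ c_k ptr k x ≥ 0` for all `x` in `[-2, 2]^g`, and `1 + ∑ e_h cos(τ_h u) ≥ 0` for all real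
  `u`, with finitely many `k` and `τ_h ≠ 0`.  Then `∑ c_k (m_k(0) + ∑ e_h m_k(τ_h)) ≤ c₀` for the orders
  `m_k(τ)` of the `L(⊗ Sym^{k_i} E_i, s)` at `(∑ k_i) / 2 + 1 + i τ`; without any continuation the same holds
  for the sizes.
* (2) Let `j ≠ 0`.  If for all `k ≠ 0` with `k_i ≤ lev(j_i)` for all `i` the `L(⊗ Sym^{k_i} E_i, s)` have
  meromorphic continuations to neighbourhoods of `s = (∑ k_i) / 2 + 1`, without poles there, then
  `L(⊗ Sym^{j_i} E_i, s)` does not vanish at `s = (∑ j_i) / 2 + 1`.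
* (3) If, moreover, the same holds at the points at the height `τ`, for one `τ ≠ 0`, then
  `L(⊗ Sym^{j_i} E_i, s)` does not vanish at `(∑ j_i) / 2 + 1 + i τ`.
* (4) Let `R ≥ 2`.  If for all `k ≠ 0` with `k_i ≤ 2 R` for all `i` the `L(⊗ Sym^{k_i} E_i, s)` have
  meromorphic continuations to neighbourhoods of `s = (∑ k_i) / 2 + 1`, without poles there, then the Dirichlet
  average of `∑ a_k ptr k (t_1(v), ..., t_g(v))`, over the `k` with `k_i ≤ R` for all `i`, exists and is equal to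
  the mean value `a_0` on `SU(2)^g`: the joint moments of the traces of degree at most `R` in each variable
  are those of independent Sato-Tate laws. -/
theorem result (K : Type) [Field K] [NumberField K] (g : ℕ)
    (t : Fin g → HeightOneSpectrum (𝓞 K) → ℝ) (ht : ∀ i v, |t i v| ≤ 2) :
    (∀ (S : Finset (Fin g → ℕ)) (c : (Fin g → ℕ) → ℝ) (c₀ : ℝ),
      (∀ x : Fin g → ℝ, (∀ i, |x i| ≤ 2) → 0 ≤ c₀ + ∑ k ∈ S, c k * ptr k x) →
      ∀ (κ : Type) (H : Finset κ) (e τ : κ → ℝ), (∀ h ∈ H, τ h ≠ 0) →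
        (∀ u : ℝ, 0 ≤ 1 + ∑ h ∈ H, e h * Real.cos (τ h * u)) →
        ∀ (B₀ : (Fin g → ℕ) → HeightOneSpectrum (𝓞 K) → ℂ[X])
          (B : (Fin g → ℕ) → κ → HeightOneSpectrum (𝓞 K) → ℂ[X]),
          (∀ k ∈ S, IsProduct t k 0 (B₀ k)) →
          (∀ k ∈ S, ∀ h ∈ H, IsProduct t k (τ h) (B k h)) →
          (∀ η : ℝ, 0 < η → ∀ᶠ ε : ℝ in 𝓝[>] 0, -η ≤ c₀ + ∑ k ∈ S, c k *
            (size (∑ i, k i) 0 (B₀ k) ε + ∑ h ∈ H, e h * size (∑ i, k i) (τ h) (B k h) ε)) ∧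
          ∀ (m₀ : (Fin g → ℕ) → ℤ) (m : (Fin g → ℕ) → κ → ℤ),
            (∀ k ∈ S, HasOrder (∑ i, k i) 0 (B₀ k) (m₀ k)) →
            (∀ k ∈ S, ∀ h ∈ H, HasOrder (∑ i, k i) (τ h) (B k h) (m k h)) →
            ∑ k ∈ S, c k * (m₀ k + ∑ h ∈ H, e h * m k h) ≤ c₀) ∧
    (∀ j : Fin g → ℕ, j ≠ 0 →
      ∀ (B₀ : (Fin g → ℕ) → HeightOneSpectrum (𝓞 K) → ℂ[X]) (m₀ : (Fin g → ℕ) → ℤ),
      (∀ k, k ≠ 0 → (∀ i, k i ≤ lev (j i)) →
        IsProduct t k 0 (B₀ k) ∧ HasOrder (∑ i, k i) 0 (B₀ k) (m₀ k) ∧ 0 ≤ m₀ k) →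
      m₀ j = 0 ∧
      ∀ (τ : ℝ) (B : (Fin g → ℕ) → HeightOneSpectrum (𝓞 K) → ℂ[X]) (m : (Fin g → ℕ) → ℤ), τ ≠ 0 →
        (∀ k, k ≠ 0 → (∀ i, k i ≤ lev (j i)) →
          IsProduct t k τ (B k) ∧ HasOrder (∑ i, k i) τ (B k) (m k) ∧ 0 ≤ m k) →
        m j = 0) ∧
    ∀ R : ℕ, 2 ≤ R →
      ∀ (B₀ : (Fin g → ℕ) → HeightOneSpectrum (𝓞 K) → ℂ[X]) (m₀ : (Fin g → ℕ) → ℤ),
      (∀ k, k ≠ 0 → (∀ i, k i ≤ 2 * R) →
        IsProduct t k 0 (B₀ k) ∧ HasOrder (∑ i, k i) 0 (B₀ k) (m₀ k) ∧ 0 ≤ m₀ k) →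
      ∀ a : (Fin g → ℕ) → ℝ, DirichletMean (fun v =>
        ∑ k ∈ Fintype.piFinset fun _ : Fin g => Finset.range (R + 1), a k * ptr k fun i => t i v)
        (a 0) := by
  have hbox : ∀ (j k : Fin g → ℕ), k ∈ (box fun i => lev (j i)).erase 0 →
      k ≠ 0 ∧ ∀ i, k i ≤ lev (j i) := by
    intro j k hk
    rw [Finset.mem_erase, mem_box] at hk
    exact hk
  refine ⟨fun S c c₀ hP κ H e τ hτ hT B₀ B hB₀ hB => ?_, fun j hj B₀ m₀ h₀ => ⟨?_, ?_⟩,
    fun R hR B₀ m₀ h₀ a => ?_⟩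
  · obtain ⟨h1, h2⟩ := Pool.Agent.H2N.SP.positivity ht S c c₀ hP H e τ hτ hT B₀ hB₀ B hB
    refine ⟨h1, fun m₀ m hm₀ hm => ?_⟩
    have := h2 m₀ m hm₀ hm
    linarith
  · exact Pool.Agent.H2N.SP.level_zero ht hj B₀
      (fun k hk => (h₀ k (hbox j k hk).1 (hbox j k hk).2).1) m₀
      (fun k hk => (h₀ k (hbox j k hk).1 (hbox j k hk).2).2)
  · intro τ B m hτ h
    exact Pool.Agent.H2N.SP.level_height ht hj hτ B₀ B
      (fun k hk => (h₀ k (hbox j k hk).1 (hbox j k hk).2).1)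
      (fun k hk => (h k (hbox j k hk).1 (hbox j k hk).2).1) m₀ m
      (fun k hk => (h₀ k (hbox j k hk).1 (hbox j k hk).2).2)
      (fun k hk => (h k (hbox j k hk).1 (hbox j k hk).2).2)
  · exact Pool.Agent.H2N.SP.level_mean ht hR B₀ (fun k h1 h2 => (h₀ k h2 h1).1) m₀
      (fun k h1 h2 => (h₀ k h2 h1).2) a

end Pool.Agent.Results.MP_753a9c_nt.ProductsFiniteLevel
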