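import Pool.Agent.V11210.SE.Main

/-!
# The moments of the coefficient `a_1` for the Jacobians of almost all superelliptic curves `y^t = f(x)`, `t ≥ 3`, whose coefficients
# arise from arbitrary integers by changing a few digits

`f` is a monic polynomial of degree `D` with integral coefficients and `D` is prime to `t`; the curve `y^t = f(x)` has one point at
infinity and the genus `(t - 1) (D - 1) / 2` if `f` is separable.  The Jacobian has the endomorphism `ζ_t`, which is not defined over
`ℚ`: the Sato-Tate group is not connected, and the distribution of `a_1` depends on the class of `p` modulo `t`.  The moments of order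
at most `D` of `a_1` over the primes `p` with `gcd (p - 1, t) = d` are those of a normal variable of variance `d - 1`.
-/

set_option autoImplicit false

namespace Pool.Agent.Results.MP_753a9c_nt.SuperellipticJacobians

open Finset MvPolynomial

variable {D : ℕ}

/-- The number of the solutions of `y ^ t = x ^ D + c (D - 1) x ^ (D - 1) + ... + c 0` modulo `p`. -/
noncomputable def points (t p : ℕ) (c : Fin D → ℤ) : ℕ :=
  Nat.card {P : ZMod p × ZMod p // P.2 ^ t = P.1 ^ D + ∑ i, (c i : ZMod p) * P.1 ^ (i : ℕ)}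

/-- The coefficient `a_1` of the normalized `L`-polynomial at a prime `p` of good reduction: minus the trace of Frobenius on `H¹`
divided by `p ^ (1 / 2)`, the trace being `p + 1 - (points t p c + 1)`. -/
noncomputable def coefficient (t p : ℕ) (c : Fin D → ℤ) : ℝ := ((points t p c : ℝ) - p) / Real.sqrt p

/-- The moment of order `m` of a normal variable with mean `0` and variance `v`. -/
noncomputable def moment (v : ℝ) (m : ℕ) : ℝ := if Even m then (Nat.doubleFactorial (m - 1) : ℝ) * v ^ (m / 2) else 0

open Classical in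
/-- `∑ w(p) (a_1(p)^m - μ_m(gcd (p - 1, t) - 1)) log p` over the primes `3 ≤ p < T` outside `R`. -/
noncomputable def momentSum (t m : ℕ) (c : Fin D → ℤ) (w : ℕ → ℝ) (R : Set ℕ) (T : ℕ) : ℝ :=
  ∑ p ∈ (range T).filter (fun p : ℕ => p.Prime ∧ 3 ≤ p ∧ p ∉ R),
    w p * (coefficient t p c ^ m - moment ((Nat.gcd (p - 1) t : ℝ) - 1) m) * Real.log p

/-- The digit number `i` (counted from the right, beginning with `0`) of `n` in base `b`. -/
def digit (b i n : ℕ) : ℕ := n / b ^ i % b

/-- The number which arises from the number `N` with at most `K` digits in base `b`, if for every `i ∈ S`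
the digit number `i` is replaced by `f i`. -/
def change (b K N : ℕ) (f : ℕ → ℕ) (S : Finset ℕ) : ℕ :=
  ∑ i ∈ range K, (if i ∈ S then f i else digit b i N) * b ^ i

open Classical in
/-- The number of the choices of `k l` of `K l` positions for all indices `l` for which the vector of the numbers obtained by
changing the digits of the `N l` at the chosen positions (according to `f l`) does not have the property `E`. -/
noncomputable def exceptions {ι : Type} [Fintype ι] [DecidableEq ι] (b : ℕ) (K k N : ι → ℕ) (f : ι → ℕ → ℕ)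
    (E : (ι → ℕ) → Prop) : ℕ :=
  ((Fintype.piFinset (fun l => powersetCard (k l) (range (K l)))).filter
    (fun S => ¬ E (fun l => change b (K l) (N l) (f l) (S l)))).card

lemma coefficient_eq (t p : ℕ) (hp : p.Prime) (c : Fin D → ℤ) :
    coefficient t p c = Pool.Agent.V11210.SE.tr t D p (fun i => (c i : ZMod p)) := by
  classical
  haveI : Fact p.Prime := ⟨hp⟩
  rw [Pool.Agent.V11210.SE.tr_eq]
  unfold coefficient Pool.Agent.V11210.SE.TT Pool.Agent.V11210.SE.gg points
  congr 1
  have h1 : Nat.card {P : ZMod p × ZMod p // P.2 ^ t = P.1 ^ D + ∑ i, (c i : ZMod p) * P.1 ^ (i : ℕ)} =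
      ∑ x : ZMod p, Nat.card {y : ZMod p // y ^ t = x ^ D + ∑ i, (c i : ZMod p) * x ^ (i : ℕ)} := by
    rw [← Nat.card_sigma]
    exact Nat.card_congr ⟨fun P => ⟨P.1.1, ⟨P.1.2, P.2⟩⟩, fun P => ⟨(P.1, P.2.1), P.2.2⟩, fun _ => rfl, fun _ => rfl⟩
  rw [h1, sum_sub_distrib, sum_const, nsmul_eq_mul, mul_one, card_univ, ZMod.card]
  push_cast
  congr 1
  refine sum_congr rfl fun x _ => ?_
  rw [Nat.card_eq_fintype_card, Fintype.card_subtype]
  rfl

/-- **The moments of `a_1` up to the order `D` for almost all superelliptic Jacobians in thin families**, with arbitrary weights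
(for instance the indicator functions of sets of primes defined by Frobenius conditions): `W T` is for every `T` a set of at most
`T ^ B` weights.  `σ` is an arbitrary integer vector, to which the vector of the changed numbers is added; `P` is a nonzero
polynomial in the coefficients (for instance the discriminant) and `R` any set of divisors of its value at the coefficients. -/
theorem result (t : ℕ) (ht : 3 ≤ t) (hD : 1 ≤ D) (hcop : Nat.Coprime D t) (P : MvPolynomial (Fin D) ℤ) (hP : P ≠ 0)
    (b : ℕ) (hb : 2 ≤ b) (δ : ℝ) (hδ : 0 < δ) (A B : ℕ) :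
    ∃ c : ℝ, 0 < c ∧ ∃ y₀ : ℕ, ∀ (K k : Fin D → ℕ) (y : ℕ),
      (∀ l, 2 * k l ≤ K l) → y₀ ≤ y → ∀ N : Fin D → ℕ, (∀ l, N l < b ^ K l) →
      ∀ f : Fin D → ℕ → ℕ, (∀ l j, f l j < b ∧ f l j ≠ digit b j (N l)) →
      ∀ σ : Fin D → ℤ,
      ∀ W : ℕ → Set (ℕ → ℝ), (∀ n, (W n).Finite ∧ (W n).ncard ≤ n ^ B) → (∀ n, ∀ w ∈ W n, ∀ p, |w p| ≤ 1) →
      (exceptions b K k N f (fun u => ∀ T : ℕ, y ≤ T → (∀ l, (T : ℝ) ≤ Real.exp (c * k l)) →
        ∀ m ≤ D, ∀ w ∈ W T, ∀ R : Set ℕ, (∀ p ∈ R, (p : ℤ) ∣ eval (fun l => σ l + u l) P) →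
        |momentSum t m (fun l => σ l + u l) w R T| ≤ (T : ℝ) ^ (1 / 2 + δ)) : ℝ) ≤
      1 / (y : ℝ) ^ A * ∏ l, ((K l).choose (k l) : ℝ) := by
  classical
  obtain ⟨c, hc, y₀, h⟩ := Pool.Agent.V11210.SE.familyS t D (by omega) hD hcop P hP b hb δ hδ A B
  refine ⟨c, hc, y₀, fun K k y hK hy N hN f hf σ W hW hW1 => ?_⟩
  have hWf : ∀ n, (W n).Finite := fun n => (hW n).1
  have key := h K k y hK hy N hN f hf σ (fun n => (hWf n).toFinset)
    (fun x _ => by
      rw [← Set.ncard_eq_toFinset_card _ (hWf x)]
      exact (hW x).2)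
    (fun x w hw p => by
      rw [Set.Finite.mem_toFinset] at hw
      exact hW1 x w hw p)
    (fun u => ∀ T : ℕ, y ≤ T → (∀ l, (T : ℝ) ≤ Real.exp (c * k l)) →
        ∀ m ≤ D, ∀ w ∈ W T, ∀ R : Set ℕ, (∀ p ∈ R, (p : ℤ) ∣ eval (fun l => σ l + u l) P) →
        |momentSum t m (fun l => σ l + u l) w R T| ≤ (T : ℝ) ^ (1 / 2 + δ)) (by
    intro u hu T hyT hT m hm w hw R hR
    have h1 := hu T hyT hT m hm w (by rw [Set.Finite.mem_toFinset]; exact hw) R hR (Classical.decPred _)
    refine le_trans (le_of_eq ?_) h1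
    unfold momentSum
    congr 1
    refine sum_congr ?_ fun p hp => ?_
    · ext p
      simp only [mem_filter]
    · simp only [mem_filter] at hp
      rw [coefficient_eq t p hp.2.1]
      rfl)
  exact key

end Pool.Agent.Results.MP_753a9c_nt.SuperellipticJacobians
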